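import Mathlib

namespace Pool.Agent.H.MP_8916ec_co

open Finset Filter Topology

variable {Y ι : Type}

/-- `i` is the unique minimiser somewhere. -/
def U (f : ι → Y → ℝ) (i : ι) (c : ι → ℝ) : Prop := ∃ x, ∀ k, k ≠ i → f i x + c i < f k x + c k

lemma U.mono {f : ι → Y → ℝ} {i : ι} {c c' : ι → ℝ} (h : U f i c) (h1 : c' i = c i)
    (h2 : ∀ k, c k ≤ c' k) : U f i c' := by
  obtain ⟨x, hx⟩ := h
  exact ⟨x, fun k hk => by have := hx k hk; have := h2 k; linarith⟩

lemma step [Fintype ι] [DecidableEq ι] (f : ι → Y → ℝ)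
    (h : ∀ I : Finset ι, I.Nonempty → ∀ c : ι → ℝ, ∃ x, ∃ i ∈ I, ∀ k ∈ I, k ≠ i →
      f i x + c i < f k x + c k)
    (c : ι → ℝ) (A : Finset ι) (hA : ∀ i ∈ A, U f i c) (k0 : ι) (hk0 : k0 ∉ A) :
    ∃ c', ∃ k, k ∉ A ∧ U f k c' ∧ ∀ i ∈ A, U f i c' := by
  classical
  obtain ⟨Q, hQ⟩ : ∃ Q : Set (ι → ℝ), ∀ q, q ∈ Q ↔ (∀ k, k ∉ A → q k = c k) ∧ ∀ i ∈ A, U f i q :=
    ⟨{q | _}, fun q => Iff.rfl⟩
  have hc : c ∈ Q := (hQ c).2 ⟨fun _ _ => rfl, hA⟩
  have hsup : ∀ p ∈ Q, ∀ q ∈ Q, p ⊔ q ∈ Q := by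
    intro p hp q hq
    rw [hQ] at hp hq ⊢
    refine ⟨fun k hk => by simp [hp.1 k hk, hq.1 k hk], fun i hi => ?_⟩
    rcases le_total (p i) (q i) with h1 | h1
    · exact (hq.2 i hi).mono (by simp [h1]) (fun k => by simp)
    · exact (hp.2 i hi).mono (by simp [h1]) (fun k => by simp)
  have hdir : ∀ T : ι → ℝ, (∀ j, ∃ q ∈ Q, T j < q j) → ∃ q ∈ Q, ∀ j, T j < q j := by
    intro T hT
    have : ∀ S : Finset ι, ∃ q ∈ Q, ∀ j ∈ S, T j < q j := by
      intro S
      induction S using Finset.induction_on with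
      | empty => exact ⟨c, hc, by simp⟩
      | insert a S _ ih =>
        obtain ⟨q, hq, h1⟩ := ih
        obtain ⟨p, hp, h2⟩ := hT a
        refine ⟨p ⊔ q, hsup p hp q hq, fun j hj => ?_⟩
        rcases Finset.mem_insert.1 hj with rfl | hj
        · exact h2.trans_le (by simp)
        · exact (h1 j hj).trans_le (by simp)
    obtain ⟨q, hq, h1⟩ := this univ
    exact ⟨q, hq, fun j => h1 j (mem_univ j)⟩
  obtain ⟨B, hB⟩ : ∃ B : Finset ι, ∀ i, i ∈ B ↔ BddAbove ((fun q => q i) '' Q) :=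
    ⟨univ.filter _, fun i => by simp only [mem_filter, mem_univ, true_and]; rfl⟩
  have hne : ∀ i, ((fun q : ι → ℝ => q i) '' Q).Nonempty := fun i => ⟨_, c, hc, rfl⟩
  obtain ⟨x, k, hk, hx⟩ := h B ⟨k0, (hB k0).2 ⟨c k0, by
    rintro _ ⟨q, hq, rfl⟩
    exact (((hQ q).1 hq).1 k0 hk0).le⟩⟩ (fun i => sSup ((fun q => q i) '' Q))
  obtain ⟨s, hs⟩ : ∃ s : ι → ℝ, ∀ i, s i = sSup ((fun q => q i) '' Q) := ⟨_, fun _ => rfl⟩
  simp only [← hs] at hx
  have hle : ∀ q ∈ Q, q k ≤ s k := fun q hq => by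
    rw [hs]; exact le_csSup ((hB k).1 hk) ⟨q, hq, rfl⟩
  have hev : ∀ᶠ e in 𝓝[>] (0 : ℝ), ∀ j, j ∈ B → j ≠ k → f k x + s k + 2 * e < f j x + s j := by
    refine Filter.eventually_all.2 fun j => ?_
    by_cases h1 : j ∈ B ∧ j ≠ k
    · have : ∀ᶠ e in 𝓝 (0 : ℝ), f k x + s k + 2 * e < f j x + s j :=
        ContinuousAt.eventually_lt (by fun_prop) (by fun_prop) (by simpa using hx j h1.1 h1.2)
      exact (this.filter_mono nhdsWithin_le_nhds).mono fun e he _ _ => he
    · exact Eventually.of_forall fun e h2 h3 => absurd ⟨h2, h3⟩ h1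
  obtain ⟨e, he, he0⟩ := (hev.and self_mem_nhdsWithin).exists
  have he0 : 0 < e := he0
  obtain ⟨q, hq, hq2⟩ := hdir (fun j => if j ∈ B then s j - e else f k x + s k + e - f j x) (by
    intro j
    split_ifs with h1
    · obtain ⟨_, ⟨q, hq, rfl⟩, h2⟩ := exists_lt_of_lt_csSup (hne j)
        (show s j - e < _ by rw [← hs]; linarith)
      exact ⟨q, hq, h2⟩
    · rw [hB, not_bddAbove_iff] at h1
      obtain ⟨_, ⟨q, hq, rfl⟩, h2⟩ := h1 (f k x + s k + e - f j x)
      exact ⟨q, hq, h2⟩)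
  have key : ∀ j, j ≠ k → f k x + s k + e < f j x + q j := by
    intro j hj
    have := hq2 j
    split_ifs at this with h1
    · have := he j h1 hj; linarith
    · linarith
  by_cases hkA : k ∈ A
  · exfalso
    have : Function.update q k (s k + e) ∈ Q := by
      rw [hQ] at hq ⊢
      refine ⟨fun j hj => ?_, fun i hi => ?_⟩
      · rw [Function.update_of_ne (by rintro rfl; exact hj hkA), hq.1 j hj]
      · by_cases hik : i = k
        · subst hik
          refine ⟨x, fun j hj => ?_⟩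
          rw [Function.update_self, Function.update_of_ne hj]
          have := key j hj; linarith
        · refine (hq.2 i hi).mono (Function.update_of_ne hik _ _) fun j => ?_
          by_cases hj : j = k
          · subst hj
            rw [Function.update_self]
            have := hle q ((hQ q).2 hq); linarith
          · rw [Function.update_of_ne hj]
    have := hle _ this
    rw [Function.update_self] at this
    linarith
  · refine ⟨q, k, hkA, ⟨x, fun j hj => ?_⟩, ((hQ q).1 hq).2⟩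
    have := key j hj
    have := hle q hq
    linarith

/-- Certificate of independence. -/
lemma cert [Fintype ι] (f : ι → Y → ℝ)
    (h : ¬ ∃ I : Finset ι, I.Nonempty ∧ ∃ c : ι → ℝ, ∀ x, ∃ i ∈ I, ∃ j ∈ I, i ≠ j ∧
      f i x + c i = f j x + c j ∧ ∀ k ∈ I, f i x + c i ≤ f k x + c k) :
    ∃ c, ∀ i, U f i c := by
  classical
  have h' : ∀ I : Finset ι, I.Nonempty → ∀ c : ι → ℝ, ∃ x, ∃ i ∈ I, ∀ k ∈ I, k ≠ i →
      f i x + c i < f k x + c k := by
    intro I hI c
    by_contra h2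
    refine h ⟨I, hI, c, fun x => ?_⟩
    obtain ⟨i, hi, h3⟩ := I.exists_min_image (fun i => f i x + c i) hI
    push Not at h2
    obtain ⟨k, hk, h4, h5⟩ := h2 x i hi
    exact ⟨i, hi, k, hk, h4.symm, le_antisymm (h3 k hk) h5, h3⟩
  have : ∀ n, n ≤ Fintype.card ι → ∃ (c : ι → ℝ) (A : Finset ι), A.card = n ∧ ∀ i ∈ A, U f i c := by
    intro n
    induction n with
    | zero => exact fun _ => ⟨0, ∅, rfl, by simp⟩
    | succ n ih =>
      intro hn
      obtain ⟨c, A, h1, h2⟩ := ih (by omega)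
      obtain ⟨k0, hk0⟩ : ∃ k0, k0 ∉ A := by
        by_contra h3
        push Not at h3
        rw [eq_univ_iff_forall.2 h3, card_univ] at h1
        omega
      obtain ⟨c', k, h3, h4, h5⟩ := step f h' c A h2 k0 hk0
      refine ⟨c', insert k A, by rw [card_insert_of_notMem h3, h1], fun i hi => ?_⟩
      rcases mem_insert.1 hi with rfl | hi
      exacts [h4, h5 i hi]
  obtain ⟨c, A, h1, h2⟩ := this _ le_rfl
  exact ⟨c, fun i => h2 i (by rw [eq_univ_of_card A h1]; exact mem_univ i)⟩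

lemma indep (f : ι → Y → ℝ) (c : ι → ℝ) (h : ∀ i, U f i c) :
    ¬ ∃ I : Finset ι, I.Nonempty ∧ ∃ c : ι → ℝ, ∀ x, ∃ i ∈ I, ∃ j ∈ I, i ≠ j ∧
      f i x + c i = f j x + c j ∧ ∀ k ∈ I, f i x + c i ≤ f k x + c k := by
  rintro ⟨I, hI, c', h'⟩
  obtain ⟨i, hi, h1⟩ := I.exists_min_image (fun i => c' i - c i) hI
  obtain ⟨x, hx⟩ := h i
  obtain ⟨a, ha, b, hb, hab, h2, h3⟩ := h' x
  have h4 := h3 i hi
  by_cases hai : a = i
  · have := hx b (by rintro rfl; exact hab hai)
    have := h1 b hb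
    linarith
  · have := hx a hai
    have := h1 a ha
    linarith

lemma inj (f : ι → Y → ℝ) (c : ι → ℝ) (h : ∀ i, U f i c) : Function.Injective f := by
  intro i k hik
  by_contra hne
  obtain ⟨x, hx⟩ := h i
  obtain ⟨y, hy⟩ := h k
  have h1 := hx k (Ne.symm hne)
  have h2 := hy i hne
  rw [hik] at h1 h2
  linarith

/-- Convex subsets of a generic fibre are thin. -/
lemma thin [Fintype ι] [Nonempty ι] {r : ℕ} (g : ι → Y → ℝ) (x : Fin r → Y) (v : Fin r → ℝ)
    (hv : ∀ i k j, v i - g j (x i) = v k - g j (x k) → i = k) (C : Set (ι → ℝ))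
    (hC : ∀ c ∈ C, ∀ i, univ.inf' univ_nonempty (fun j => g j (x i) + c j) = v i)
    (hn : C.Nonempty) (hc : Convex ℝ C) :
    Module.finrank ℝ (vectorSpan ℝ C) + r ≤ Fintype.card ι := by
  classical
  have : ∀ S : Finset ι, ∃ c ∈ C, ∀ j ∈ S, (∃ p ∈ C, ∃ q ∈ C, p j < q j) → ∃ p ∈ C, p j < c j := by
    intro S
    have mid : ∀ p ∈ C, ∀ q ∈ C, (1 / 2 : ℝ) • p + (1 / 2 : ℝ) • q ∈ C := fun p hp q hq =>
      hc hp hq (by norm_num) (by norm_num) (by norm_num)
    induction S using Finset.induction_on with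
    | empty => obtain ⟨c, h⟩ := hn; exact ⟨c, h, by simp⟩
    | insert a S _ ih =>
      obtain ⟨c, h1, h2⟩ := ih
      by_cases h3 : ∃ p ∈ C, ∃ q ∈ C, p a < q a
      · obtain ⟨p, hp, q, hq, h4⟩ := h3
        refine ⟨_, mid c h1 q hq, fun j hj h5 => ?_⟩
        rcases mem_insert.1 hj with rfl | hj
        · exact ⟨_, mid c h1 p hp, by simp; linarith⟩
        · obtain ⟨p', hp', h6⟩ := h2 j hj h5
          exact ⟨_, mid p' hp' q hq, by simp; linarith⟩
      · refine ⟨c, h1, fun j hj h5 => ?_⟩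
        rcases mem_insert.1 hj with rfl | hj
        exacts [absurd h5 h3, h2 j hj h5]
  obtain ⟨c, h1, h2⟩ := this univ
  have : ∀ i, ∃ m, g m (x i) + c m = v i := fun i => by
    obtain ⟨m, _, hm⟩ := exists_mem_eq_inf' univ_nonempty (fun j => g j (x i) + c j)
    exact ⟨m, by rw [← hm, hC c h1]⟩
  choose m hm using this
  have hinj : Function.Injective m := fun i k hik => hv i k (m i) (by
    have := hm i
    have := hm k
    rw [← hik] at this
    linarith)
  have hconst : ∀ i, ∀ p ∈ C, ∀ q ∈ C, p (m i) = q (m i) := by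
    intro i
    have : ¬ ∃ p ∈ C, ∃ q ∈ C, p (m i) < q (m i) := fun h3 => by
      obtain ⟨p, hp, h4⟩ := h2 _ (mem_univ _) h3
      have h5 := inf'_le (fun j => g j (x i) + p j) (mem_univ (m i))
      rw [hC p hp] at h5
      have := hm i
      linarith
    push Not at this
    exact fun p hp q hq => le_antisymm (this q hq p hp) (this p hp q hq)
  have h3 : vectorSpan ℝ C ≤ LinearMap.ker (LinearMap.funLeft ℝ ℝ m) := by
    rw [vectorSpan_def, Submodule.span_le]
    rintro _ ⟨p, hp, q, hq, rfl⟩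
    ext i
    simp [LinearMap.funLeft_apply, hconst i p hp q hq]
  have h4 := LinearMap.finrank_range_add_finrank_ker (LinearMap.funLeft ℝ ℝ m)
  rw [LinearMap.range_eq_top.2 (LinearMap.funLeft_surjective_of_injective ℝ ℝ m hinj)] at h4
  have h5 := Submodule.finrank_mono h3
  simp at h4
  omega

/-- An independent family produces a generic fibre. -/
lemma lower [Fintype ι] [Nonempty ι] {r : ℕ} (g : ι → Y → ℝ) (f : Fin r → Y → ℝ)
    (hf : ∀ i, ∃ (J : Finset ι) (hJ : J.Nonempty) (a : ι → ℝ),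
      ∀ x, f i x = J.inf' hJ (fun j => g j x + a j)) (c : Fin r → ℝ) (h : ∀ i, U f i c) :
    ∃ (b : ι → ℝ) (x : Fin r → Y) (v : Fin r → ℝ),
      (∀ i k j, v i - g j (x i) = v k - g j (x k) → i = k) ∧
      ∀ i, univ.inf' univ_nonempty (fun j => g j (x i) + b j) = v i := by
  classical
  choose J hJ a ha using hf
  choose x hx using h
  have : ∀ i, ∃ m ∈ J i, f i (x i) = g m (x i) + a i m := fun i => by
    obtain ⟨m, h1, hm⟩ := exists_mem_eq_inf' (hJ i) (fun j => g j (x i) + a i j)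
    exact ⟨m, h1, by rw [ha, hm]⟩
  choose m hm1 hm2 using this
  obtain ⟨e, he⟩ : ∃ e : Fin r → ℝ, ∀ i, e i = a i (m i) + c i := ⟨_, fun _ => rfl⟩
  have h1 : ∀ i k, k ≠ i → g (m i) (x i) + e i < g (m k) (x i) + e k := by
    intro i k hk
    have h2 := hx i k hk
    have h3 := inf'_le (fun j => g j (x i) + a k j) (hm1 k)
    rw [← ha] at h3
    have := hm2 i
    rw [he, he]
    linarith
  have hinj : Function.Injective m := fun i k hik => by
    by_contra hne
    have h2 := h1 i k (Ne.symm hne)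
    have h3 := h1 k i hne
    rw [hik] at h2 h3
    linarith
  have ev1 : ∀ᶠ t in 𝓝[>] (0 : ℝ), ∀ i k : Fin r,
      g (m i) (x i) + (e i + t * i) ≤ g (m k) (x i) + (e k + t * k) := by
    refine Filter.eventually_all.2 fun i => Filter.eventually_all.2 fun k => ?_
    by_cases hk : k = i
    · subst hk; exact Eventually.of_forall fun _ => le_rfl
    · have : ∀ᶠ t in 𝓝 (0 : ℝ), g (m i) (x i) + (e i + t * i) < g (m k) (x i) + (e k + t * k) :=
        ContinuousAt.eventually_lt (by fun_prop) (by fun_prop) (by simpa using h1 i k hk)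
      exact (this.filter_mono nhdsWithin_le_nhds).mono fun _ h => h.le
  have ev2 : ∀ᶠ t in 𝓝[>] (0 : ℝ), ∀ (i k : Fin r) (j : ι),
      g (m i) (x i) + (e i + t * i) - g j (x i) = g (m k) (x k) + (e k + t * k) - g j (x k) →
        i = k := by
    refine Filter.eventually_all.2 fun i => Filter.eventually_all.2 fun k =>
      Filter.eventually_all.2 fun j => ?_
    by_cases h0 : g (m i) (x i) + e i - g j (x i) = g (m k) (x k) + e k - g j (x k)
    · refine eventually_nhdsWithin_of_forall fun t ht h2 => ?_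
      have ht : (0 : ℝ) < t := ht
      have : t * i = t * k := by linarith
      have : ((i : ℕ) : ℝ) = (k : ℕ) := mul_left_cancel₀ ht.ne' this
      exact Fin.ext (by exact_mod_cast this)
    · have : ∀ᶠ t in 𝓝 (0 : ℝ), g (m i) (x i) + (e i + t * i) - g j (x i) -
          (g (m k) (x k) + (e k + t * k) - g j (x k)) ≠ 0 :=
        ContinuousAt.eventually_ne (by fun_prop) (by simpa [sub_eq_zero] using h0)
      exact (this.filter_mono nhdsWithin_le_nhds).mono fun _ h h2 => absurd (sub_eq_zero.2 h2) h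
  obtain ⟨t, t1, t2⟩ := (ev1.and ev2).exists
  obtain ⟨M, hM⟩ := (Set.finite_range fun p : Fin r × ι =>
    g (m p.1) (x p.1) + (e p.1 + t * p.1) - g p.2 (x p.1)).bddAbove
  refine ⟨Function.extend m (fun i => e i + t * i) (fun _ => M), x, _, t2, fun i => ?_⟩
  apply le_antisymm
  · refine (inf'_le _ (mem_univ (m i))).trans ?_
    rw [hinj.extend_apply]
  · refine le_inf' _ _ fun j _ => ?_
    by_cases hj : ∃ k, m k = j
    · obtain ⟨k, rfl⟩ := hj
      rw [hinj.extend_apply]
      exact t1 i k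
    · rw [Function.extend_apply' _ _ _ hj]
      have := hM ⟨(i, j), rfl⟩
      simp only at this
      linarith

/-- A minimal cover gives a thick convex piece and an independent family. -/
lemma upper [Fintype ι] [Nonempty ι] (g : ι → Y → ℝ) (b : ι → ℝ) :
    ∃ (r : ℕ) (m : Fin r → ι) (C : Set (ι → ℝ)), (∀ i, U (fun i => g (m i)) i (fun i => b (m i))) ∧
      (∀ c ∈ C, ∀ x, univ.inf' univ_nonempty (fun j => g j x + c j) =
        univ.inf' univ_nonempty (fun j => g j x + b j)) ∧ C.Nonempty ∧ Convex ℝ C ∧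
      Fintype.card ι ≤ r + Module.finrank ℝ (vectorSpan ℝ C) := by
  classical
  obtain ⟨F, hF⟩ : ∃ F : Y → ℝ, ∀ x, univ.inf' univ_nonempty (fun j => g j x + b j) = F x :=
    ⟨_, fun _ => rfl⟩
  have hle : ∀ x j, F x ≤ g j x + b j := fun x j => by
    rw [← hF]; exact inf'_le (fun j => g j x + b j) (mem_univ j)
  obtain ⟨J, hJ, hmin⟩ := exists_min_image
    (univ.filter fun J : Finset ι => ∀ x, ∃ j ∈ J, g j x + b j = F x) Finset.card ⟨univ, by
      simp only [mem_filter, mem_univ, true_and]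
      intro x
      obtain ⟨m, _, hm⟩ := exists_mem_eq_inf' univ_nonempty (fun j => g j x + b j)
      exact ⟨m, by rw [← hm, hF]⟩⟩
  simp only [mem_filter, mem_univ, true_and] at hJ hmin
  refine ⟨J.card, fun i => J.equivFin.symm i, {c | (∀ j ∈ J, c j = b j) ∧ ∀ j, b j ≤ c j},
    fun i => ?_, fun c hc x => ?_, ⟨b, fun _ _ => rfl, fun _ => le_rfl⟩, ?_, ?_⟩
  · have h1 : ¬ ∀ x, ∃ j ∈ J.erase (J.equivFin.symm i), g j x + b j = F x := fun h => by
      have h2 := hmin _ h
      have h3 := card_erase_lt_of_mem (J.equivFin.symm i).2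
      omega
    push Not at h1
    obtain ⟨x, hx⟩ := h1
    refine ⟨x, fun k hk => ?_⟩
    have h2 := hx (J.equivFin.symm k) (mem_erase.2 ⟨fun h => hk (by
      simpa using Subtype.ext h), (J.equivFin.symm k).2⟩)
    obtain ⟨j, hj, h3⟩ := hJ x
    have h4 : j = J.equivFin.symm i := by
      by_contra h5
      exact hx j (mem_erase.2 ⟨h5, hj⟩) h3
    simp only [← h4, h3]
    exact lt_of_le_of_ne (hle x _) h2.symm
  · rw [hF]
    apply le_antisymm
    · obtain ⟨j, hj, h3⟩ := hJ x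
      refine (inf'_le _ (mem_univ j)).trans ?_
      rw [hc.1 j hj, h3]
    · refine le_inf' _ _ fun j _ => ?_
      have := hle x j
      have := hc.2 j
      linarith
  · intro p hp q hq s t hs ht hst
    refine ⟨fun j hj => ?_, fun j => ?_⟩
    · simp only [Pi.add_apply, Pi.smul_apply, smul_eq_mul, hp.1 j hj, hq.1 j hj]
      rw [← add_mul, hst, one_mul]
    · simp only [Pi.add_apply, Pi.smul_apply, smul_eq_mul]
      have h1 := mul_le_mul_of_nonneg_left (hp.2 j) hs
      have h2 := mul_le_mul_of_nonneg_left (hq.2 j) ht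
      have h3 : s * b j + t * b j = b j := by rw [← add_mul, hst, one_mul]
      linarith
  · have li : LinearIndependent ℝ (fun j : (Jᶜ : Finset ι) => (Pi.single (j : ι) (1 : ℝ) : ι → ℝ)) := by
      have := (Pi.basisFun ℝ ι).linearIndependent.comp (fun j : (Jᶜ : Finset ι) => (j : ι))
        Subtype.val_injective
      convert this using 1
      ext j k
      simp
    have h1 := finrank_span_eq_card li
    have h2 : Submodule.span ℝ (Set.range fun j : (Jᶜ : Finset ι) =>
        (Pi.single (j : ι) (1 : ℝ) : ι → ℝ)) ≤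
        vectorSpan ℝ {c : ι → ℝ | (∀ j ∈ J, c j = b j) ∧ ∀ j, b j ≤ c j} := by
      rw [Submodule.span_le]
      rintro _ ⟨j, rfl⟩
      have h3 := vsub_mem_vectorSpan ℝ (s := {c : ι → ℝ | (∀ j ∈ J, c j = b j) ∧ ∀ j, b j ≤ c j})
        (p₁ := b + Pi.single (j : ι) 1) (p₂ := b) ⟨fun k hk => by
          have : k ≠ j := by rintro rfl; exact (mem_compl.1 j.2) hk
          simp [this], fun k => by
          by_cases hk : k = j
          · subst hk; simp
          · simp [hk]⟩ ⟨fun _ _ => rfl, fun _ => le_rfl⟩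
      simpa using h3
    have h3 := Submodule.finrank_mono h2
    rw [h1, Fintype.card_coe, card_compl] at h3
    omega

end Pool.Agent.H.MP_8916ec_co
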